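import Pool.Agent.E8helper49.DD.Stm

/-!
# Project DD: cocycles of the disk are coboundaries (S_COC)
-/

set_option autoImplicit false

namespace Pool.Agent.E8helper52.DD

open Pool.Agent.E8helper49.DD

/-- paths in a spanning tree of the dual graph -/
def tl : Fin 20 → List (Fin 12 × Fin 12) :=
  ![[], [], [(0, 3)], [(0, 3), (0, 4)], [(0, 3), (0, 4), (0, 5)], [(3, 2), (7, 2), (6, 2)], [(3,
  2)], [(0, 3), (4, 3)], [(0, 3), (0, 4), (5, 4)], [(0, 3), (0, 4), (0, 5), (1, 5)], [(3, 2), (7,
  2), (6, 2), (6, 1)], [(3, 2), (7, 2)], [(3, 2), (3, 7)], [(0, 3), (4, 3), (4, 8)], [(0, 3), (0,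
  4), (5, 4), (5, 9)], [(3, 2), (7, 2), (7, 6), (11, 6)], [(3, 2), (7, 2), (7, 6)], [(3, 2), (3,
  7), (8, 7)], [(0, 3), (4, 3), (4, 8), (9, 8)], [(0, 3), (0, 4), (5, 4), (5, 9), (10, 9)]]

/-- the coefficients of a list of flags -/
noncomputable def cf (l : List (Fin 12 × Fin 12)) (a b : Fin 12) : ℝ := ((l.count (a, b) : ℕ) : ℝ)

lemma cf_sum (J : Fin 12 → Fin 12 → ℝ) (l : List (Fin 12 × Fin 12)) :
    ∑ a, ∑ b, cf l a b * J a b = (l.map fun p => J p.1 p.2).sum := by
  induction l with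
  | nil => simp [cf]
  | cons p l ih =>
    obtain ⟨u, v⟩ := p
    have h1 : ∀ a b, cf ((u, v) :: l) a b * J a b =
        cf l a b * J a b + if a = u then (if b = v then J a b else 0) else 0 := by
      intro a b
      unfold cf
      rw [List.count_cons]
      by_cases ha : a = u
      · by_cases hb : b = v
        · subst ha; subst hb; simp; ring
        · have : ((u, v) == (a, b)) = false := by
            simp only [beq_eq_false_iff_ne, ne_eq, Prod.mk.injEq, not_and]
            intro _ h; exact hb h.symm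
          rw [this, if_pos ha, if_neg hb]; simp
      · have : ((u, v) == (a, b)) = false := by
          simp only [beq_eq_false_iff_ne, ne_eq, Prod.mk.injEq, not_and]
          intro h; exact absurd h.symm ha
        rw [this, if_neg ha]; simp
    simp only [h1, Finset.sum_add_distrib, ih, List.map_cons, List.sum_cons]
    rw [add_comm]
    congr 1
    simp

set_option maxHeartbeats 4000000 in
theorem t_COC : S_COC := by
  refine ⟨fun T => cf (tl T), fun J hJ hv v i hi => ?_⟩
  rw [cf_sum, cf_sum]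
  have h3 := hv 3 (by decide)
  have h4 := hv 4 (by decide)
  have h5 := hv 5 (by decide)
  have h6 := hv 6 (by decide)
  have h7 := hv 7 (by decide)
  have h8 := hv 8 (by decide)
  have h9 := hv 9 (by decide)
  have h10 := hv 10 (by decide)
  have h11 := hv 11 (by decide)
  simp [Fin.sum_univ_five, nbr] at h3 h4 h5 h6 h7 h8 h9 h10 h11
  have a1_0 := hJ 1 0
  have a2_0 := hJ 2 0
  have a3_0 := hJ 3 0
  have a4_0 := hJ 4 0
  have a5_0 := hJ 5 0
  have a2_1 := hJ 2 1
  have a5_1 := hJ 5 1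
  have a6_1 := hJ 6 1
  have a10_1 := hJ 10 1
  have a3_2 := hJ 3 2
  have a6_2 := hJ 6 2
  have a7_2 := hJ 7 2
  have a4_3 := hJ 4 3
  have a7_3 := hJ 7 3
  have a8_3 := hJ 8 3
  have a5_4 := hJ 5 4
  have a8_4 := hJ 8 4
  have a9_4 := hJ 9 4
  have a9_5 := hJ 9 5
  have a10_5 := hJ 10 5
  have a7_6 := hJ 7 6
  have a10_6 := hJ 10 6
  have a11_6 := hJ 11 6
  have a8_7 := hJ 8 7
  have a11_7 := hJ 11 7
  have a9_8 := hJ 9 8
  have a11_8 := hJ 11 8
  have a10_9 := hJ 10 9
  have a11_9 := hJ 11 9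
  have a11_10 := hJ 11 10
  clear hJ hv
  revert hi
  fin_cases v <;> fin_cases i <;> intro hi <;> first | (exact absurd hi (by decide)) |
    (simp [lf, nbr, tl] <;> linarith)

end Pool.Agent.E8helper52.DD
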