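import Pool.Agent.E8helper49.DD.Stm

/-!
# Project DD: Maxwell liftings are unique (S_UNIQ)
-/

set_option autoImplicit false

namespace Pool.Agent.E8helper52.DD

open Pool.Agent.E8helper49.DD

theorem t_UNIQ : S_UNIQ := by
  intro w x y z z' hO hP hz hz' hJ hJ'
  obtain ⟨x0, y0, x1, y1, x2, y2⟩ := hO
  obtain ⟨z0, z1, z2⟩ := hz
  obtain ⟨w0, w1, w2⟩ := hz'
  obtain ⟨d, hd⟩ : ∃ d : Fin 12 → ℝ, ∀ v, d v = z v - z' v := ⟨fun v => z v - z' v, fun _ => rfl⟩
  have hV : ∀ v i, (3 ≤ v ∨ 3 ≤ nbr v i) →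
      vol x y d v (nbr v (i-1)) (nbr v i) (nbr v (i+1)) = 0 := by
    intro v i hi
    have h1 := hJ v i hi
    have h2 := hJ' v i hi
    have h3 : vol x y d v (nbr v (i-1)) (nbr v i) (nbr v (i+1)) =
        vol x y z v (nbr v (i-1)) (nbr v i) (nbr v (i+1)) -
          vol x y z' v (nbr v (i-1)) (nbr v i) (nbr v (i+1)) := by
      unfold vol
      simp only [hd]
      ring
    rw [h3, h1, h2, sub_self]
  have d0 : d 0 = 0 := by rw [hd, z0, w0, sub_self]
  have d1 : d 1 = 0 := by rw [hd, z1, w1, sub_self]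
  have d2 : d 2 = 0 := by rw [hd, z2, w2, sub_self]
  have e1 : vol x y d 0 2 3 4 = 0 := hV 0 2 (by decide)
  have e2 : vol x y d 0 3 4 5 = 0 := hV 0 3 (by decide)
  have e3 : vol x y d 0 4 5 1 = 0 := hV 0 4 (by decide)
  have p1 : 0 < ar x y 0 2 3 := hP 1 (by decide)
  have p2 : 0 < ar x y 0 3 4 := hP 2 (by decide)
  have p3 : 0 < ar x y 0 4 5 := hP 3 (by decide)
  have p4 : 0 < ar x y 0 5 1 := hP 4 (by decide)
  have p6 : 0 < ar x y 2 7 3 := hP 6 (by decide)
  have p12 : 0 < ar x y 3 7 8 := hP 12 (by decide)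
  have e7 : vol x y d 2 7 3 0 = 0 := hV 2 4 (by decide)
  have e8 : vol x y d 3 8 4 0 = 0 := hV 3 4 (by decide)
  have e9 : vol x y d 4 9 5 0 = 0 := hV 4 4 (by decide)
  have e10 : vol x y d 5 10 1 0 = 0 := hV 5 4 (by decide)
  have e6 : vol x y d 7 3 2 6 = 0 := hV 7 1 (by decide)
  have e11 : vol x y d 7 11 8 3 = 0 := hV 7 4 (by decide)
  have hy3 : 0 < y 3 := by
    unfold ar at p1
    rw [x0, y0, x2, y2] at p1
    linarith
  obtain ⟨β, hβ⟩ : ∃ β, d 3 = β * y 3 := ⟨d 3 / y 3, by field_simp⟩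
  have h4 : d 4 = β * y 4 := by
    unfold vol at e1
    rw [x0, y0, x2, y2, d0, d2, hβ] at e1
    have : y 3 * (d 4 - β * y 4) = 0 := by linear_combination e1
    rcases mul_eq_zero.1 this with h | h
    · exact absurd h hy3.ne'
    · linarith
  have h5 : d 5 = β * y 5 := by
    unfold vol at e2
    unfold ar at p2
    rw [x0, y0] at p2
    rw [x0, y0, d0, hβ, h4] at e2
    have : ((x 3 - 0) * (y 4 - 0) - (x 4 - 0) * (y 3 - 0)) * (d 5 - β * y 5) = 0 := by
      linear_combination e2
    rcases mul_eq_zero.1 this with h | h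
    · exact absurd h p2.ne'
    · linarith
  have hb : β = 0 := by
    unfold vol at e3
    unfold ar at p3
    rw [x0, y0] at p3
    rw [x0, y0, d0, x1, y1, d1, h5, h4] at e3
    have : ((x 4 - 0) * (y 5 - 0) - (x 5 - 0) * (y 4 - 0)) * β = 0 := by
      linear_combination -e3
    rcases mul_eq_zero.1 this with h | h
    · exact absurd h p3.ne'
    · exact h
  have d3 : d 3 = 0 := by rw [hβ, hb, zero_mul]
  have d4 : d 4 = 0 := by rw [h4, hb, zero_mul]
  have d5 : d 5 = 0 := by rw [h5, hb, zero_mul]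
  have d7 : d 7 = 0 := by
    have h : ar x y 0 2 3 * d 7 = 0 := by
      unfold vol at e7
      unfold ar
      rw [d0, d2, d3] at e7
      linear_combination e7
    exact (mul_eq_zero.1 h).resolve_left p1.ne'
  have d8 : d 8 = 0 := by
    have h : ar x y 0 3 4 * d 8 = 0 := by
      unfold vol at e8
      unfold ar
      rw [d0, d3, d4] at e8
      linear_combination e8
    exact (mul_eq_zero.1 h).resolve_left p2.ne'
  have d9 : d 9 = 0 := by
    have h : ar x y 0 4 5 * d 9 = 0 := by
      unfold vol at e9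
      unfold ar
      rw [d0, d5, d4] at e9
      linear_combination e9
    exact (mul_eq_zero.1 h).resolve_left p3.ne'
  have d10 : d 10 = 0 := by
    have h : ar x y 0 5 1 * d 10 = 0 := by
      unfold vol at e10
      unfold ar
      rw [d0, d5, d1] at e10
      linear_combination e10
    exact (mul_eq_zero.1 h).resolve_left p4.ne'
  have d6 : d 6 = 0 := by
    have h : ar x y 2 7 3 * d 6 = 0 := by
      unfold vol at e6
      unfold ar
      rw [d7, d3, d2] at e6
      linear_combination e6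
    exact (mul_eq_zero.1 h).resolve_left p6.ne'
  have d11 : d 11 = 0 := by
    have h : ar x y 3 7 8 * d 11 = 0 := by
      unfold vol at e11
      unfold ar
      rw [d7, d3, d8] at e11
      linear_combination e11
    exact (mul_eq_zero.1 h).resolve_left p12.ne'
  have hall : ∀ v, d v = 0 := by
    intro v
    fin_cases v <;> assumption
  funext v
  have := hall v
  rw [hd] at this
  linarith

end Pool.Agent.E8helper52.DD
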